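import Pool.Agent.Helper26.Tf.Fin

set_option autoImplicit false
set_option linter.unusedVariables false

/-!
# Minimizers of the atomic TFDW functional need not be symmetric decreasing

We show that for `γ = 5/3`, `C_e = 8/3`, `p = 5/3`, for every sufficiently small `A > 0` and every
sufficiently small nuclear charge `z > 0` there is a mass `λ > z` at which minimizers exist, and
no minimizer at `λ` is, up to sign, (almost everywhere equal to) a symmetric decreasing function.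
-/

namespace Pool.Agent.Results.MP_b91f46_mp.NotSymmetric

open MeasureTheory Filter Topology Set
open scoped ENNReal NNReal ContDiff

/-- Three dimensional space. -/
abbrev R3 : Type := EuclideanSpace ℝ (Fin 3)

/-- `G` is the distributional gradient of `ψ`. -/
def IsWeakGradient (ψ : R3 → ℝ) (G : R3 → R3) : Prop :=
  ∀ φ : R3 → ℝ, ContDiff ℝ ∞ φ → HasCompactSupport φ → ∀ v : R3,
    ∫ x, ψ x * fderiv ℝ φ x v = - ∫ x, inner ℝ (G x) v * φ x

/-- The admissible functions: `ψ ∈ L² ∩ L^{2p}` with distributional gradient `G ∈ L²`. -/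
structure Admissible (p : ℝ) (ψ : R3 → ℝ) (G : R3 → R3) : Prop where
  memTwo : MemLp ψ 2 volume
  memTwoP : MemLp ψ (ENNReal.ofReal (2 * p)) volume
  gradMem : MemLp G 2 volume
  grad : IsWeakGradient ψ G

/-- `J(t) = (γ/p) t^p - (3 C_e / 4) t^{4/3}` -/
noncomputable def J (γ Ce p t : ℝ) : ℝ := γ / p * t ^ p - 3 * Ce / 4 * t ^ (4 / 3 : ℝ)

/-- The Coulomb energy `D(f,g) = (1/2) ∬ f(x) g(y) / |x - y| dx dy`. -/
noncomputable def D (f g : R3 → ℝ) : ℝ := 1 / 2 * ∫ x, ∫ y, f x * g y / ‖x - y‖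

/-- The TFDW functional of an atom of nuclear charge `z` at the origin (`G` is the gradient of
`ψ`). -/
noncomputable def energy (A γ Ce p z : ℝ) (ψ : R3 → ℝ) (G : R3 → R3) : ℝ :=
  A * (∫ x, ‖G x‖ ^ 2) + (∫ x, J γ Ce p (ψ x ^ 2)) - z * (∫ x, ψ x ^ 2 / ‖x‖) +
    D (fun x => ψ x ^ 2) (fun x => ψ x ^ 2)

/-- `ψ` is a minimizer at `lam`: it is admissible with `∫ ψ² = lam` and its energy is the least
energy among all admissible functions of the same mass. -/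
def IsMinimizer (A γ Ce p z lam : ℝ) (ψ : R3 → ℝ) : Prop :=
  ∃ G : R3 → R3, Admissible p ψ G ∧ ∫ x, ψ x ^ 2 = lam ∧
    ∀ (φ : R3 → ℝ) (H : R3 → R3), Admissible p φ H → ∫ x, φ x ^ 2 = lam →
      energy A γ Ce p z ψ G ≤ energy A γ Ce p z φ H

/-- `ψ` is symmetric decreasing (up to a null set): `ψ(x) = F(|x|)` for almost every `x`, with
`F ≥ 0` nonincreasing on `[0, ∞)`. -/
def SymmDecreasing (ψ : R3 → ℝ) : Prop :=
  ∃ F : ℝ → ℝ, (∀ r, 0 ≤ r → 0 ≤ F r) ∧ AntitoneOn F (Ici 0) ∧ ∀ᵐ x : R3, ψ x = F ‖x‖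

open Pool.Agent.Helper26.Tf

lemma J_eq (u : ℝ) : J (5 / 3) (8 / 3) (5 / 3) (u ^ 2) = W u - u ^ 2 := by
  unfold J W
  set t := u ^ 2 with ht
  have ht0 : 0 ≤ t := sq_nonneg u
  have h1 : t ^ (5 / 3 : ℝ) = t * (t ^ (1 / 3 : ℝ)) ^ 2 := by
    rcases ht0.eq_or_lt with h | h
    · rw [← h]
      norm_num
    · rw [← Real.rpow_natCast, ← Real.rpow_mul ht0]
      nth_rewrite 2 [← Real.rpow_one t]
      rw [← Real.rpow_add h]
      norm_num
  have h2 : t ^ (4 / 3 : ℝ) = t * t ^ (1 / 3 : ℝ) := by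
    rcases ht0.eq_or_lt with h | h
    · rw [← h]
      norm_num
    · nth_rewrite 2 [← Real.rpow_one t]
      rw [← Real.rpow_add h]
      norm_num
  rw [h1, h2]
  ring

lemma energy_eq {A z : ℝ} {ψ f : R3 → ℝ} {G g : R3 → R3} (h : H1 f g) (hψ : ψ =ᵐ[volume] f)
    (hG : G =ᵐ[volume] g) :
    energy A (5 / 3) (8 / 3) (5 / 3) z ψ G = GG A z f g - (1 - dl A) * Ms f := by
  have e1 : ∫ x, ‖G x‖ ^ 2 = Tk g := by
    apply integral_congr_ae
    filter_upwards [hG] with x hx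
    rw [hx]
  have e2 : ∫ x, J (5 / 3) (8 / 3) (5 / 3) (ψ x ^ 2) = Ws f - Ms f := by
    unfold Ws Ms
    rw [← integral_sub h.W_int h.sq_int]
    apply integral_congr_ae
    filter_upwards [hψ] with x hx
    rw [hx, J_eq]
  have e3 : ∫ x, ψ x ^ 2 / ‖x‖ = Ph f 0 := by
    unfold Ph
    apply integral_congr_ae
    filter_upwards [hψ] with x hx
    rw [hx, sub_zero]
  have e4 : D (fun x => ψ x ^ 2) (fun x => ψ x ^ 2) = Dd f := by
    rw [h.Dd_eq]
    unfold D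
    congr 1
    apply integral_congr_ae
    filter_upwards [hψ] with x hx
    unfold Ph
    rw [← integral_const_mul]
    apply integral_congr_ae
    filter_upwards [hψ] with y hy
    rw [hx, hy, norm_sub_rev]
    ring
  unfold energy GG NN
  rw [e1, e2, e3, e4]
  ring

lemma adm_H1 {p : ℝ} {ψ f : R3 → ℝ} {G g : R3 → R3} (h : Admissible p ψ G) (hf : Measurable f)
    (hg : Measurable g) (hψ : ψ =ᵐ[volume] f) (hG : G =ᵐ[volume] g) : H1 f g := by
  refine ⟨hf, hg, (memLp_congr_ae hψ).1 h.memTwo, (memLp_congr_ae hG).1 h.gradMem, ?_⟩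
  intro φ hφ hφc v
  have h1 := h.grad φ hφ hφc v
  have e1 : ∫ x, f x * fderiv ℝ φ x v = ∫ x, ψ x * fderiv ℝ φ x v := by
    apply integral_congr_ae
    filter_upwards [hψ] with x hx
    rw [hx]
  have e2 : ∫ x, inner ℝ (g x) v * φ x = ∫ x, inner ℝ (G x) v * φ x := by
    apply integral_congr_ae
    filter_upwards [hG] with x hx
    rw [hx]
  rw [e1, e2]
  exact h1

lemma adm_rep {p : ℝ} {ψ : R3 → ℝ} {G : R3 → R3} (h : Admissible p ψ G) :
    ∃ f g, H1 f g ∧ ψ =ᵐ[volume] f ∧ G =ᵐ[volume] g :=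
  ⟨h.memTwo.1.mk ψ, h.gradMem.1.mk G,
    adm_H1 h h.memTwo.1.stronglyMeasurable_mk.measurable
      h.gradMem.1.stronglyMeasurable_mk.measurable h.memTwo.1.ae_eq_mk h.gradMem.1.ae_eq_mk,
    h.memTwo.1.ae_eq_mk, h.gradMem.1.ae_eq_mk⟩

lemma H1_adm {f : R3 → ℝ} {g : R3 → R3} (h : H1 f g) : Admissible (5 / 3) f g := by
  refine ⟨h.f2, ?_, h.g2, h.weak⟩
  have he : ENNReal.ofReal (2 * (5 / 3)) = ENNReal.ofReal (10 / 3) := by norm_num
  rw [he, ← integrable_norm_rpow_iff h.fm.aestronglyMeasurable (by simp) (by simp)]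
  have hm : Measurable fun x => ‖f x‖ ^ (ENNReal.ofReal (10 / 3)).toReal :=
    h.fm.norm.pow_const _
  refine Integrable.mono' (h.sq_int.add h.six_int) hm.aestronglyMeasurable ?_
  filter_upwards with x
  rw [Real.norm_of_nonneg (by positivity), ENNReal.toReal_ofReal (by norm_num)]
  show ‖f x‖ ^ (10 / 3 : ℝ) ≤ f x ^ 2 + f x ^ 6
  have h2 : f x ^ 2 = ‖f x‖ ^ (2 : ℝ) := by
    rw [Real.rpow_two, Real.norm_eq_abs, sq_abs]
  have h6 : f x ^ 6 = ‖f x‖ ^ (6 : ℝ) := by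
    show f x ^ 6 = ‖f x‖ ^ ((6 : ℕ) : ℝ)
    rw [Real.rpow_natCast, Real.norm_eq_abs]
    exact (Even.pow_abs (by decide) _).symm
  rcases le_or_gt ‖f x‖ 1 with h1 | h1
  · have h6p : 0 ≤ f x ^ 6 := by positivity
    have h3 : ‖f x‖ ^ (10 / 3 : ℝ) ≤ ‖f x‖ ^ (2 : ℝ) := by
      rcases (norm_nonneg (f x)).eq_or_lt with h0 | h0
      · rw [← h0, Real.zero_rpow (by norm_num), Real.zero_rpow (by norm_num)]
      · exact Real.rpow_le_rpow_of_exponent_ge h0 h1 (by norm_num)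
    rw [h2]
    linarith
  · have h2p : 0 ≤ f x ^ 2 := by positivity
    have h3 : ‖f x‖ ^ (10 / 3 : ℝ) ≤ ‖f x‖ ^ (6 : ℝ) :=
      Real.rpow_le_rpow_of_exponent_le h1.le (by norm_num)
    rw [h6]
    linarith

lemma mass_eq {ψ f : R3 → ℝ} (hψ : ψ =ᵐ[volume] f) : ∫ x, ψ x ^ 2 = Ms f := by
  apply integral_congr_ae
  filter_upwards [hψ] with x hx
  rw [hx]

lemma adm_neg {p : ℝ} {ψ : R3 → ℝ} {G : R3 → R3} (h : Admissible p ψ G) :
    Admissible p (fun x => -ψ x) (fun x => -G x) := by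
  refine ⟨h.memTwo.neg, h.memTwoP.neg, h.gradMem.neg, ?_⟩
  intro φ hφ hφc v
  have h1 := h.grad φ hφ hφc v
  have e1 : ∫ x, -ψ x * fderiv ℝ φ x v = -∫ x, ψ x * fderiv ℝ φ x v := by
    rw [← integral_neg]
    apply integral_congr_ae
    filter_upwards with x
    ring
  have e2 : ∫ x, inner ℝ (-G x) v * φ x = -∫ x, inner ℝ (G x) v * φ x := by
    rw [← integral_neg]
    apply integral_congr_ae
    filter_upwards with x
    rw [inner_neg_left]
    ring
  rw [e1, e2, h1]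

lemma min_neg {A γ Ce p z lam : ℝ} {ψ : R3 → ℝ} (h : IsMinimizer A γ Ce p z lam ψ) :
    IsMinimizer A γ Ce p z lam (fun x => -ψ x) := by
  obtain ⟨G, hadm, hm, hmin⟩ := h
  have e : energy A γ Ce p z (fun x => -ψ x) (fun x => -G x) = energy A γ Ce p z ψ G := by
    unfold energy
    simp only [neg_sq, norm_neg]
  refine ⟨fun x => -G x, adm_neg hadm, ?_, ?_⟩
  · simp only [neg_sq]
    exact hm
  · intro φ H hφ hφm
    rw [e]
    exact hmin φ H hφ hφm

/-- There are constants (`γ = 5/3`, `C_e = 8/3`, `p = 5/3`, all small enough `A > 0`, all small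
enough `z > 0`) and a mass `lam > z` such that minimizers at `lam` exist, and no minimizer at `lam`
is symmetric decreasing, not even after changing its sign. -/
theorem result :
    ∃ A₀ : ℝ, 0 < A₀ ∧ ∀ A : ℝ, 0 < A → A < A₀ →
      ∃ z₀ : ℝ, 0 < z₀ ∧ ∀ z : ℝ, 0 < z → z < z₀ →
        ∃ lam : ℝ, z < lam ∧
          (∃ ψ : R3 → ℝ, IsMinimizer A (5 / 3) (8 / 3) (5 / 3) z lam ψ) ∧
          ∀ ψ : R3 → ℝ, IsMinimizer A (5 / 3) (8 / 3) (5 / 3) z lam ψ →
            ¬ SymmDecreasing ψ ∧ ¬ SymmDecreasing (fun x => -ψ x) := by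
  obtain ⟨a₀, ha₀, hmain⟩ := main_abs
  refine ⟨a₀ ^ 6, by positivity, fun A hA hAA => ?_⟩
  set a := A ^ (1 / 6 : ℝ) with ha
  have ha0 : 0 < a := Real.rpow_pos_of_pos hA _
  have ha6 : a ^ 6 = A := by
    rw [ha, ← Real.rpow_natCast, ← Real.rpow_mul hA.le]
    norm_num
  have haa : a < a₀ := by
    by_contra hc
    push Not at hc
    have := pow_le_pow_left₀ ha₀.le hc 6
    linarith
  obtain ⟨z₀, hz₀, hz⟩ := hmain a ha0 haa
  rw [ha6] at hz
  refine ⟨z₀, hz₀, fun z hz1 hz2 => ?_⟩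
  obtain ⟨lam, hlam, ⟨f₀, g₀, h₀, hm₀, hmin₀⟩, hno⟩ := hz z hz1 hz2
  have hnosym : ∀ ψ : R3 → ℝ, IsMinimizer A (5 / 3) (8 / 3) (5 / 3) z lam ψ →
      ¬ SymmDecreasing ψ := by
    rintro ψ ⟨G, hadm, hm, hmin⟩ ⟨F, hF0, hFa, hFe⟩
    set F' : ℝ → ℝ := fun r => F (max r 0) with hF'
    have hF'a : Antitone F' := by
      intro r s hrs
      exact hFa (le_max_right r 0) (le_max_right s 0) (max_le_max hrs le_rfl)
    have hF'0 : ∀ r, 0 ≤ F' r := fun r => hF0 _ (le_max_right r 0)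
    have hψ : ψ =ᵐ[volume] fun x => F' ‖x‖ := by
      filter_upwards [hFe] with x hx
      rw [hx, hF']
      simp only [max_eq_left (norm_nonneg x)]
    have hfm : Measurable fun x : R3 => F' ‖x‖ := hF'a.measurable.comp measurable_norm
    have hGm := hadm.gradMem.1.stronglyMeasurable_mk.measurable
    have h1 := adm_H1 hadm hfm hGm hψ hadm.gradMem.1.ae_eq_mk
    have hMs : Ms (fun x : R3 => F' ‖x‖) = lam := by rw [← mass_eq hψ, hm]
    refine hno _ _ h1 hMs ?_ ⟨F', hF'a, hF'0, rfl⟩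
    intro u v hu hMu
    have h2 := hmin u v (H1_adm hu) (by rw [mass_eq (EventuallyEq.refl _ u)]; exact hMu)
    rw [energy_eq h1 hψ hadm.gradMem.1.ae_eq_mk,
      energy_eq hu (EventuallyEq.refl _ u) (EventuallyEq.refl _ v), hMs, hMu] at h2
    linarith
  refine ⟨lam, hlam, ⟨f₀, g₀, H1_adm h₀, ?_, ?_⟩, fun ψ hψ => ⟨hnosym ψ hψ, hnosym _ (min_neg hψ)⟩⟩
  · rw [mass_eq (EventuallyEq.refl _ f₀)]
    exact hm₀
  · intro φ H hφ hφm
    obtain ⟨u, v, hu, hφu, hHv⟩ := adm_rep hφ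
    rw [mass_eq hφu] at hφm
    have h2 := hmin₀ u v hu hφm
    rw [energy_eq hu hφu hHv, energy_eq h₀ (EventuallyEq.refl _ f₀) (EventuallyEq.refl _ g₀),
      hm₀, hφm]
    linarith

end Pool.Agent.Results.MP_b91f46_mp.NotSymmetric
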